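import Pool.Agent.H77.JcDefs

namespace Pool.Agent.Results.MP_d6b04a_al.Yes

open H77.Jc Classical Finset

variable {L : Type*} [CompleteLattice L] [IsModularLattice L]

theorem nak {t c s : L} (ht : IsPoint t) (hc : c < t) (h : t ≤ c ⊔ s) : t ≤ s := by
  obtain ⟨d, hd, hd'⟩ := ht
  by_contra hn
  have h1 : s ⊓ t ≤ d := hd' (lt_of_le_of_ne inf_le_right fun e => hn (inf_eq_right.1 e))
  have h2 : (c ⊔ s) ⊓ t = c ⊔ s ⊓ t := sup_inf_assoc_of_le s hc.le
  rw [inf_eq_right.2 h] at h2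
  exact absurd (h2.le.trans (sup_le (hd' hc) h1)) (not_le_of_gt hd)

theorem one (hs : Spatial L) {p : L} (hp : IsCompactElement p) {r e : L} (h : p ≤ r ⊔ e) :
    ∃ T : Finset L, (∀ t ∈ T, IsPoint t ∧ t ≤ e ∧ t ≤ p ⊔ r) ∧ p ≤ r ⊔ T.sup id ∧
      ∀ t ∈ T, ¬ p ≤ r ⊔ (T.erase t).sup id := by
  obtain ⟨S, hS, hS'⟩ := hs (e ⊓ (p ⊔ r))
  have h1 : p ≤ sSup (insert r S) := by
    rw [sSup_insert, hS', ← sup_inf_assoc_of_le e le_sup_right]
    exact le_inf h le_sup_left
  obtain ⟨U, hU, hU'⟩ := (CompleteLattice.isCompactElement_iff_exists_le_sSup_of_le_sSup L p).1 hp _ h1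
  have hex : ∃ n, ∃ T : Finset L, T.card = n ∧ (∀ t ∈ T, IsPoint t ∧ t ≤ e ∧ t ≤ p ⊔ r) ∧
      p ≤ r ⊔ T.sup id := by
    refine ⟨_, U.filter (· ∈ S), rfl, fun t ht => ?_, hU'.trans (Finset.sup_le fun x hx => ?_)⟩
    · have h2 := (mem_filter.1 ht).2
      exact ⟨hS t h2, le_inf_iff.1 (hS' ▸ le_sSup h2)⟩
    · rcases hU hx with rfl | h2
      · exact le_sup_left
      · exact le_sup_of_le_right (Finset.le_sup (f := id) (mem_filter.2 ⟨hx, h2⟩))
  obtain ⟨T, hT, h2, h3⟩ := Nat.find_spec hex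
  refine ⟨T, h2, h3, fun t ht h4 => Nat.find_min hex (m := (T.erase t).card) ?_
    ⟨_, rfl, fun u hu => h2 u (mem_of_mem_erase hu), h4⟩⟩
  rw [← hT]
  exact card_erase_lt_of_mem ht

theorem main (hs : Spatial L) {p : L} (hp : IsCompactElement p) (E : Finset L) :
    ∀ r : L, p ≤ r ⊔ E.sup id → ∃ F : Finset L, (∀ t ∈ F, IsPoint t) ∧ Refines F E ∧
      p ≤ r ⊔ F.sup id ∧ ∀ t ∈ F, ∀ c < t, ¬ p ≤ c ⊔ (r ⊔ (F.erase t).sup id) := by
  induction E using Finset.induction_on with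
  | empty => exact fun r h => ⟨∅, by simp, fun _ h => by simp at h, h, by simp⟩
  | insert e E _ ih =>
    intro r h
    obtain ⟨T, h1, h2, h3⟩ := one hs hp (r := r ⊔ E.sup id) (e := e)
      (by rwa [sup_insert, id, sup_comm e, ← sup_assoc] at h)
    obtain ⟨F, f1, f2, f3, f4⟩ := ih (r ⊔ T.sup id) (by rwa [sup_right_comm] at h2)
    refine ⟨T ∪ F, fun t ht => (mem_union.1 ht).elim (fun a => (h1 t a).1) (f1 t), fun t ht => ?_,
      by rwa [sup_union, ← sup_assoc], fun t ht c hc hle => ?_⟩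
    · rcases mem_union.1 ht with a | a
      · exact ⟨e, mem_insert_self _ _, (h1 t a).2.1⟩
      · obtain ⟨y, hy, hy'⟩ := f2 t a
        exact ⟨y, mem_insert_of_mem hy, hy'⟩
    · by_cases a : t ∈ T
      · have e1 : r ⊔ ((T ∪ F).erase t).sup id ≤ r ⊔ E.sup id ⊔ (T.erase t).sup id := by
          refine sup_le (le_sup_of_le_left le_sup_left) (Finset.sup_le fun x hx => ?_)
          obtain ⟨x1, x2⟩ := mem_erase.1 hx
          rcases mem_union.1 x2 with b | b
          · exact le_sup_of_le_right (Finset.le_sup (f := id) (mem_erase.2 ⟨x1, b⟩))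
          · obtain ⟨y, hy, hy'⟩ := f2 x b
            exact le_sup_of_le_left (le_sup_of_le_right (hy'.trans (Finset.le_sup (f := id) hy)))
        have e2 : t ≤ r ⊔ E.sup id ⊔ (T.erase t).sup id := nak (h1 t a).1 hc
          ((h1 t a).2.2.trans (sup_le (hle.trans (sup_le_sup_left e1 c))
            (le_sup_of_le_right le_sup_left)))
        refine h3 t a (h2.trans (sup_le le_sup_left (Finset.sup_le fun x hx => ?_)))
        by_cases hx' : x = t
        · exact hx' ▸ e2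
        · exact le_sup_of_le_right (Finset.le_sup (f := id) (mem_erase.2 ⟨hx', hx⟩))
      · refine f4 t ((mem_union.1 ht).resolve_left a) c hc (hle.trans (sup_le_sup_left ?_ c))
        refine sup_le (le_sup_of_le_left le_sup_left) (Finset.sup_le fun x hx => ?_)
        obtain ⟨x1, x2⟩ := mem_erase.1 hx
        rcases mem_union.1 x2 with b | b
        · exact le_sup_of_le_left (le_sup_of_le_right (Finset.le_sup (f := id) b))
        · exact le_sup_of_le_right (Finset.le_sup (f := id) (mem_erase.2 ⟨x1, b⟩))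

theorem result (L : Type*) [CompleteLattice L] [IsCompactlyGenerated L] [IsModularLattice L]
    (hs : Spatial L) (p : L) (hp : IsCompactElement p) (E : Finset L) (hE : JoinCover p E) :
    ∃ F : Finset L, MinimalJoinCover p F ∧ Refines F E := by
  obtain ⟨F, f1, f2, f3, f4⟩ := main hs hp E ⊥ (by rwa [bot_sup_eq])
  refine ⟨F, ⟨by rwa [bot_sup_eq] at f3, fun X hX hXF t ht => ?_⟩, f2⟩
  by_contra hn
  obtain ⟨c, hc, hc'⟩ := f1 t ht
  refine f4 t ht c hc (le_trans hX (Finset.sup_le fun x hx => ?_))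
  obtain ⟨y, hy, hy'⟩ := hXF x hx
  by_cases e : y = t
  · exact le_sup_of_le_left (hc' (lt_of_le_of_ne (e ▸ hy') fun h => hn (h ▸ hx)))
  · exact le_sup_of_le_right (le_sup_of_le_right
      (hy'.trans (Finset.le_sup (f := id) (mem_erase.2 ⟨e, hy⟩))))

end Pool.Agent.Results.MP_d6b04a_al.Yes
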